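import Pool.Agent.R782.Bal.Main

/-!
# All `ℓ²`-Betti numbers vanish if and only if the Euler characteristic does: colourwise subdivided spheres

Let the flag complex of the finite graph `G` be a homology manifold with the homology of the `(n-1)`-sphere
(`HSph n G`). The quotients of the Davis complex of the right-angled Coxeter group `W G` by its torsion-free
subgroups `H` of finite index are closed aspherical (homology) `n`-manifolds `M` with `χ(M) = [W G : H] χ(W G)`,
`χ(W G) = ∑_T (-1/2)^|T|` (`chiW G`), whose `ℓ²`-Betti numbers vanish if and only if the Davis complex has no nonzero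
`ℓ²` harmonic chains (`L2Van G i` for all `i`).

(1) We prove Q1 for these manifolds if `G` is the colourwise barycentric subdivision of a simplicial complex in the
sphere of dimension `2 d`, `n = 2 d` or `2 d + 1`, for a small colouring (for example: `d + 1` colours without
monochromatic triangles, the monochromatic edges are subdivided).

(2) We prove Q1 for these manifolds if `G` is in the class `SQ (n / 2 + 1)`, which has as a base the
`(d + 1)`-colourable flag complexes in the sphere of dimension `2 d` and is closed under the operations listed in its
definition.
-/

set_option autoImplicit false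

namespace Pool.Agent.Results.MP_394d50_gt.ColouredSpheresIff

open Pool.Agent.W907.SG Pool.Agent.W907.SM Pool.Agent.R782.Bal
open Pool.Agent.TH652.Above (HSph)

/-- `ℓ²`-acyclicity is equivalent to the vanishing of the Euler characteristic, (1) for homology spheres which are
colourwise barycentric subdivisions of complexes in the sphere of dimension `2 d` for a small colouring, (2) for
homology spheres in the class `SQ`. -/
theorem result :
    (∀ (d n N k : ℕ) (X : Finset (Finset (Fin N))) (col : Fin N → Fin k), (n = 2 * d ∨ n = 2 * d + 1) →
      (∀ σ ∈ X, ∀ τ : Finset (Fin N), τ ⊆ σ → τ ∈ X) → Small d X col → EmbX d X col →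
      ∀ [Fintype (MF X col)] [LinearOrder (MF X col)], HSph n (cs X col) →
        ((∀ i : ℕ, L2Van (cs X col) i) ↔ chiW (cs X col) = 0)) ∧
    (∀ (n : ℕ) (V : Type) [Fintype V] [LinearOrder V] (G : SimpleGraph V), HSph n G → SQ (n / 2 + 1) G →
        ((∀ i : ℕ, L2Van G i) ↔ chiW G = 0)) := by
  refine ⟨?_, ?_⟩
  · intro d n N k X col hn hX hs hE _ _ hS
    exact l2eul _ _ (n / 2) fun i hi => singer_cs hn hX hs hE hS i (by omega)
  · intro n V _ _ G hS hA
    exact l2eul V G (n / 2) fun i hi => singer_SQ hS hA i (by omega)

end Pool.Agent.Results.MP_394d50_gt.ColouredSpheresIff
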