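import Pool.Agent.R703.MO.Main

/-!
# All `ℓ²`-Betti numbers vanish if and only if the Euler characteristic does: a Morse criterion

Let the flag complex of the finite graph `G` be a homology manifold with the homology of the `(n-1)`-sphere
(`HSph n G`). The quotients of the Davis complex of the right-angled Coxeter group `W G` by its torsion-free
subgroups `H` of finite index are closed aspherical (homology) `n`-manifolds `M` with `χ(M) = [W G : H] χ(W G)`,
`χ(W G) = ∑_T (-1/2)^|T|` (`chiW G`), whose `ℓ²`-Betti numbers vanish if and only if the Davis complex has no nonzero
`ℓ²` harmonic chains (`L2Van G i` for all `i`).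

We prove Q1 for these manifolds if for each degree `i > n / 2` a finite covering of them has a circle-valued Morse
function, affine on the cubes and possibly constant on some of them, such that the ascending links of the flat cubes
(including the vertices) have no reduced real homology in the degree `i - 1 - dimension of the flat cube`; and also
if `G` is in the class `MQ (n / 2 + 1)`, which is closed under a relative version of the Morse criterion and under
the operations of the earlier class `SQ`.
-/

set_option autoImplicit false

namespace Pool.Agent.Results.MP_394d50_gt.MorseIff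

open Pool.Agent.W907.SG Pool.Agent.W907.SM Pool.Agent.Y132.SI Pool.Agent.R703.MO
open Pool.Agent.TH652.Above (HSph)

/-- For each degree `i > n / 2` there is a system of slopes of `G` on a nonempty finite set such that for all points
`x` and all cliques `S` of flat directions at `x` with `|S| ≤ i` the flag complex on the ascending directions at `x`
adjacent to all the elements of `S` has no reduced real homology in the degree `i - |S| - 1`. -/
def HasSlopes (n : ℕ) {V : Type} [Fintype V] [LinearOrder V] (G : SimpleGraph V) : Prop :=
  ∀ i : ℕ, n < 2 * i → ∃ (X : Type) (_ : Finite X) (_ : Nonempty X) (D : Slope G X), ∀ (x : X) (S : Finset V),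
    G.IsClique (S : Set V) → (∀ s ∈ S, D.dir s x = 0) → ∀ j, i = j + S.card → HomZero G (D.Asc S x) j

/-- Let the flag complex of the finite graph `G` be a real homology sphere of dimension `n - 1` with the property
`HasSlopes n` or in the class `MQ (n / 2 + 1)`. The following are equivalent: (1) the reduced `ℓ²`-homology of the
Davis complex of `W G` vanishes in all degrees, (2) the Euler characteristic `χ(W G) = ∑_T (-1/2)^|T|` (over the
cliques `T` of `G`) is zero, (3) for each `ε > 0` there is a finite set `E` of nontrivial elements of `W G` such that
for all subgroups `H` of finite index of `W G` containing no conjugate of an element of `E` all real Betti numbers of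
`H` are at most `ε [W G : H]`. -/
theorem result : ∀ (n : ℕ) (V : Type) [Fintype V] [LinearOrder V] (G : SimpleGraph V), HSph n G →
    (HasSlopes n G ∨ MQ (n / 2 + 1) G) →
    ((∀ i : ℕ, L2Van G i) ↔ chiW G = 0) ∧
    (chiW G = 0 ↔ ∀ ε : ℝ, 0 < ε → ∃ E : Finset (W G), (1 : W G) ∉ E ∧
      ∀ H : Subgroup (W G), H.FiniteIndex → (∀ g ∈ E, ∀ x : W G, x * g * x⁻¹ ∉ H) →
        ∀ i : ℕ, (Module.finrank ℝ (HInv G H i) : ℝ) ≤ ε * H.index) := by
  intro n V _ _ G hS hA
  have h : ∀ i : ℕ, 2 * i ≠ n → L2Van G i := by
    rcases hA with hA | hA
    · exact fun i hi => singer_slopes hS hA i hi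
    · exact fun i hi => singer_MQ hS hA i hi
  exact ⟨l2eul V G (n / 2) fun i hi => h i (by omega), chi_iff G n h⟩

end Pool.Agent.Results.MP_394d50_gt.MorseIff
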