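import Pool.Agent.R781.VS.Growth

/-!
# All `ℓ²`-Betti numbers vanish if and only if the Euler characteristic does, for spheres built by vertex splittings

Let `L` be the flag complex of the finite graph `G` and suppose that `L` is a real homology manifold with the real
homology of the `(n-1)`-sphere (`HSph n G`).  The Davis complex of the right-angled Coxeter group `W G` is then a
contractible real homology `n`-manifold (a topological manifold if `L` is a combinatorial sphere), and its quotients
by torsion-free subgroups of finite index are closed aspherical `n`-manifolds.

The class `AR n` is closed under vertex splitting, the inverse of the contraction of an edge which is not contained in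
an induced 4-cycle, and under the operations of the class `AQ n` (full subcomplexes, edge subdivisions, joins,
gluings, ...); it contains the barycentric subdivisions of all triangulated `(n-1)`-spheres.
-/

set_option autoImplicit false

namespace Pool.Agent.Results.MP_394d50_gt.SplitSpheres

open Pool.Agent.W907.SG Pool.Agent.W907.SM Pool.Agent.TH652.Above Pool.Agent.Y132.SI Pool.Agent.R781.VS

/-- Let the flag complex of the finite graph `G` be a real homology sphere of dimension `n - 1` in the class `AR n`.
The following are equivalent: (1) the reduced `ℓ²`-homology of the Davis complex of `W G` vanishes in all degrees,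
(2) the Euler characteristic `χ(W G) = ∑_T (-1/2)^|T|` (over the cliques `T` of `G`) is zero, (3) for each `ε > 0`
there is a finite set `E` of nontrivial elements of `W G` such that for all subgroups `H` of finite index of `W G`
containing no conjugate of an element of `E` all real Betti numbers of `H` are at most `ε [W G : H]`. -/
theorem result : ∀ (n : ℕ) (V : Type) [Fintype V] [LinearOrder V] (G : SimpleGraph V), HSph n G → AR n G →
    ((∀ i : ℕ, L2Van G i) ↔ chiW G = 0) ∧
    (chiW G = 0 ↔ ∀ ε : ℝ, 0 < ε → ∃ E : Finset (W G), (1 : W G) ∉ E ∧
      ∀ H : Subgroup (W G), H.FiniteIndex → (∀ g ∈ E, ∀ x : W G, x * g * x⁻¹ ∉ H) →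
        ∀ i : ℕ, (Module.finrank ℝ (HInv G H i) : ℝ) ≤ ε * H.index) := by
  intro n V _ _ G hS hA
  have h : ∀ i : ℕ, 2 * i ≠ n → L2Van G i := fun i hi => singer_AR hS hA i hi
  exact ⟨l2eul V G (n / 2) fun i hi => h i (by omega), chi_iff G n h⟩

end Pool.Agent.Results.MP_394d50_gt.SplitSpheres
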